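import Pool.Agent.Q220.Adm.Main

/-!
MP_d065a3_lc, Q1: yes, even without logarithms. Let `p` be the least prime with `n ≤ 2 p ^ 3`. Write
`s = s_0 + 2 p s_1 + 4 p ^ 2 s_2` with `s_0, s_1 < 2 p`. The set `S` consists of all `s` in `[2 n, 4 n)`
with `s_2 + h s_0 ≡ h' + s_0 s_1` modulo `p` for some `h, h' ∈ {0, 1}`. If the last two digits of
`a` and `b` are in the same halves of `[0, 2 p)`, then the carries in `a + b` are known, and
`a + b ∈ S` if the sum of the points of `a` and `b` is on the surface `z = x y` over the field with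
`p` elements. For two different translations of this surface by `b`, `b'` only `p` points are on both;
so by the second moment a set of more than `p ^ 2 + p` points has two different points whose sum is
on the surface.
-/

open Q220.Adm

namespace Pool.Agent.Results.MP_d065a3_lc.ExplicitSet

/-- There are a program `P`, a polynomial `T` and a constant `C` such that for every `n ≥ 2` the
program prints on the input `n`, in time at most `T(n)`, the elements of a set `S ⊆ [2 n, 4 n)`,
each of them once, such that `S` and all sets `A ⊆ [n, 2 n)` which are admissible with respect to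
`S` have at most `C n ^ (2/3)`, and also at most `C n ^ (2/3) (ln n) ^ (2/3)`, elements. -/
theorem result : ∃ (P : Prog) (T : Polynomial ℕ) (C : ℝ), 0 < C ∧ ∀ n : ℕ, 2 ≤ n →
    P.runtime n ≤ T.eval n ∧
    (P.output n).Nodup ∧ (∀ s ∈ P.output n, 2 * n ≤ s ∧ s < 4 * n) ∧
    ((P.output n).length : ℝ) ≤ C * (n : ℝ) ^ (2 / 3 : ℝ) ∧
    ((P.output n).length : ℝ) ≤ C * (n : ℝ) ^ (2 / 3 : ℝ) * Real.log n ^ (2 / 3 : ℝ) ∧
    ∀ A : Finset ℕ, (∀ a ∈ A, n ≤ a ∧ a < 2 * n) →
      (∀ a ∈ A, ∀ b ∈ A, a ≠ b → a + b ∉ P.output n) →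
      (A.card : ℝ) ≤ C * (n : ℝ) ^ (2 / 3 : ℝ) ∧
      (A.card : ℝ) ≤ C * (n : ℝ) ^ (2 / 3 : ℝ) * Real.log n ^ (2 / 3 : ℝ) :=
  main

end Pool.Agent.Results.MP_d065a3_lc.ExplicitSet
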